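import Mathlib

/-!
# Every Scott completion is a D-completion
-/

set_option autoImplicit false

namespace Pool.Agent.Results.MP_50fe75_gt.ScottCompletion

open Set Topology

universe u

section Defs

variable {X : Type u} [TopologicalSpace X]

/-- The specialization order: `x ⊑ y` iff `x` lies in the closure of `{y}`. -/
def Spec (x y : X) : Prop := x ∈ closure {y}

/-- Directed subsets (nonempty) for the specialization order. -/
def Dir (D : Set X) : Prop := D.Nonempty ∧ ∀ a ∈ D, ∀ b ∈ D, ∃ c ∈ D, Spec a c ∧ Spec b c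

/-- `s` is a supremum of `D` for the specialization order. -/
def IsSup (D : Set X) (s : X) : Prop :=
  (∀ a ∈ D, Spec a s) ∧ ∀ t, (∀ a ∈ D, Spec a t) → Spec s t

variable (X) in
/-- The specialization order is a dcpo. -/
def SpecDcpo : Prop := ∀ D : Set X, Dir D → ∃ s, IsSup D s

/-- Scott open sets of the specialization order. -/
def ScottOpen (U : Set X) : Prop :=
  (∀ x ∈ U, ∀ y, Spec x y → y ∈ U) ∧ ∀ D s, Dir D → IsSup D s → s ∈ U → (D ∩ U).Nonempty

variable (X) in
/-- Scott spaces. -/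
structure ScottSpace : Prop where
  t0 : T0Space X
  dcpo : SpecDcpo X
  isOpen_iff : ∀ U : Set X, IsOpen U ↔ ScottOpen U

variable (X) in
/-- Monotone convergence spaces (d-spaces). -/
structure MonotoneConvergence : Prop where
  t0 : T0Space X
  dcpo : SpecDcpo X
  scottOpen : ∀ U : Set X, IsOpen U → ScottOpen U

/-- d-closed sets. -/
def DClosed (A : Set X) : Prop := ∀ D ⊆ A, Dir D → ∀ s, IsSup D s → s ∈ A

/-- d-dense sets: the smallest d-closed set containing `A` is the whole space. -/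
def DDense (A : Set X) : Prop := ∀ B, DClosed B → A ⊆ B → B = univ

variable {Y : Type u} [TopologicalSpace Y]

/-- D-completions. -/
structure DCompletion (j : X → Y) : Prop where
  mono : MonotoneConvergence Y
  emb : IsEmbedding j
  dense : DDense (range j)

/-- Scott completions. -/
structure ScottCompletion (i : X → Y) : Prop where
  scott : ScottSpace Y
  cont : Continuous i
  univ : ∀ (Z : Type u) [TopologicalSpace Z], ScottSpace Z → ∀ g : X → Z, Continuous g →
    ∃! h : Y → Z, Continuous h ∧ h ∘ i = g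

end Defs

/-- A dcpo with its Scott topology is a Scott space. -/
theorem scottSpace_of (P : Type u) [PartialOrder P] [TopologicalSpace P] [IsScott P univ]
    (h : ∀ D : Set P, D.Nonempty → DirectedOn (· ≤ ·) D → ∃ s, IsLUB D s) : ScottSpace P := by
  have hspec : ∀ x y : P, Spec x y ↔ x ≤ y := fun x y => by
    rw [Spec, Topology.IsScott.closure_singleton, mem_Iic]
  have hdir : ∀ D : Set P, Dir D ↔ D.Nonempty ∧ DirectedOn (· ≤ ·) D := fun D => by
    simp only [Dir, hspec, DirectedOn]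
  have hsup : ∀ (D : Set P) (s : P), IsSup D s ↔ IsLUB D s := fun D s => by
    simp only [IsSup, hspec, IsLUB, IsLeast, upperBounds, lowerBounds, mem_setOf_eq]
  refine ⟨inferInstance, fun D hD => ?_, fun U => ?_⟩
  · obtain ⟨h1, h2⟩ := (hdir D).1 hD
    obtain ⟨s, hs⟩ := h D h1 h2
    exact ⟨s, (hsup D s).2 hs⟩
  · rw [Topology.IsScott.isOpen_iff_isUpperSet_and_dirSupInaccOn (D := univ), dirSupInaccOn_univ]
    constructor
    · rintro ⟨h1, h2⟩
      exact ⟨fun x hx y hxy => h1 ((hspec x y).1 hxy) hx, fun D s hD hs hsU =>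
        h2 ((hdir D).1 hD).1 ((hdir D).1 hD).2 ((hsup D s).1 hs) hsU⟩
    · rintro ⟨h1, h2⟩
      exact ⟨fun x y hxy hx => h1 x hx y ((hspec x y).2 hxy), fun D hne hD s hs hsU =>
        h2 D s ((hdir D).2 ⟨hne, hD⟩) ((hsup D s).2 hs) hsU⟩

section Ext

variable {X T : Type u} [TopologicalSpace X] [TopologicalSpace T] {i : X → T}

theorem sier_scott : @ScottSpace (Set PUnit.{u+1}) (Topology.scott _ univ) := by
  letI : TopologicalSpace (Set PUnit.{u+1}) := Topology.scott _ univ
  haveI : IsScott (Set PUnit.{u+1}) univ := ⟨rfl⟩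
  exact scottSpace_of _ fun D _ _ => ⟨sSup D, isLUB_sSup D⟩

/-- The characteristic map into the Sierpinski space. -/
def chi (U : Set X) : X → Set PUnit.{u+1} := fun x => {_p | x ∈ U}

theorem chi_cont {U : Set X} (hU : IsOpen U) :
    @Continuous X (Set PUnit.{u+1}) _ (Topology.scott _ univ) (chi U) := by
  letI : TopologicalSpace (Set PUnit.{u+1}) := Topology.scott _ univ
  haveI : IsScott (Set PUnit.{u+1}) univ := ⟨rfl⟩
  refine continuous_def.2 fun S hS => ?_
  have hup : IsUpperSet S := Topology.IsScott.isUpperSet_of_isOpen (D := univ) hS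
  by_cases h0 : (∅ : Set PUnit.{u+1}) ∈ S
  · have : chi U ⁻¹' S = univ := eq_univ_of_forall fun x => hup (empty_subset _) h0
    rw [this]
    exact isOpen_univ
  · by_cases h1 : (univ : Set PUnit.{u+1}) ∈ S
    · have : chi U ⁻¹' S = U := by
        ext x
        constructor
        · intro hx
          by_contra hxU
          apply h0
          have h2 : chi U x = ∅ := eq_empty_of_forall_notMem fun p hp => hxU hp
          rw [← h2]
          exact hx
        · intro hx
          have h2 : chi U x = univ := eq_univ_of_forall fun p => hx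
          change chi U x ∈ S
          rw [h2]
          exact h1
      rw [this]
      exact hU
    · have : chi U ⁻¹' S = ∅ := eq_empty_of_forall_notMem fun x hx => h1 (hup (subset_univ _) hx)
      rw [this]
      exact isOpen_empty

theorem open_unique (h : ScottCompletion i) {V W : Set T} (hV : IsOpen V) (hW : IsOpen W)
    (hVW : i ⁻¹' V = i ⁻¹' W) : V = W := by
  letI : TopologicalSpace (Set PUnit.{u+1}) := Topology.scott _ univ
  obtain ⟨f, -, hf⟩ := h.univ (Set PUnit.{u+1}) sier_scott (chi V ∘ i) ((chi_cont hV).comp h.cont)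
  have h1 : chi V = f := hf _ ⟨chi_cont hV, rfl⟩
  have h2 : chi W = f := by
    refine hf _ ⟨chi_cont hW, ?_⟩
    funext x
    change ({_p | i x ∈ W} : Set PUnit.{u+1}) = {_p | i x ∈ V}
    have h3 : i x ∈ W ↔ i x ∈ V := by
      have h4 : x ∈ i ⁻¹' V ↔ x ∈ i ⁻¹' W := by rw [hVW]
      exact h4.symm
    simp only [h3]
  ext t
  have h3 : chi V t = chi W t := by rw [h1, h2]
  have h4 : (PUnit.unit : PUnit.{u+1}) ∈ chi V t ↔ (PUnit.unit : PUnit.{u+1}) ∈ chi W t := by rw [h3]
  exact h4

theorem open_exists (h : ScottCompletion i) {U : Set X} (hU : IsOpen U) :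
    ∃ V : Set T, IsOpen V ∧ i ⁻¹' V = U := by
  letI : TopologicalSpace (Set PUnit.{u+1}) := Topology.scott _ univ
  haveI : IsScott (Set PUnit.{u+1}) univ := ⟨rfl⟩
  obtain ⟨f, ⟨hf, hfi⟩, -⟩ := h.univ (Set PUnit.{u+1}) sier_scott (chi U) (chi_cont hU)
  refine ⟨f ⁻¹' {univ}, IsOpen.preimage hf ?_, ?_⟩
  · rw [Topology.IsScott.isOpen_iff_isUpperSet_and_dirSupInaccOn (D := univ), dirSupInaccOn_univ]
    refine ⟨fun a b hab ha => ?_, fun D _ _ s hs hsU => ?_⟩
    · rw [mem_singleton_iff] at ha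
      subst ha
      exact univ_subset_iff.1 hab
    · rw [mem_singleton_iff] at hsU
      subst hsU
      by_contra hcon
      have h1 : (univ : Set PUnit.{u+1}) ⊆ ∅ := by
        refine hs.2 fun d hd p hp => hcon ⟨d, hd, ?_⟩
        rw [mem_singleton_iff]
        exact eq_univ_of_forall fun q => by
          rwa [Subsingleton.elim q p]
      exact h1 (mem_univ PUnit.unit)
  · ext x
    have h1 : f (i x) = chi U x := congrFun hfi x
    rw [mem_preimage, mem_preimage, h1, mem_singleton_iff]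
    constructor
    · intro h2
      have h3 : (PUnit.unit : PUnit.{u+1}) ∈ chi U x := by rw [h2]; exact mem_univ _
      exact h3
    · intro hx
      exact eq_univ_of_forall fun p => hx

end Ext

/-- The open neighbourhoods of `y`. -/
def nb {T : Type u} [TopologicalSpace T] (y : T) : Set (Set T) := {V | IsOpen V ∧ y ∈ V}

theorem spec_iff {T : Type u} [TopologicalSpace T] {x y : T} : Spec x y ↔ nb x ⊆ nb y := by
  constructor
  · intro h V hV
    refine ⟨hV.1, ?_⟩
    obtain ⟨z, hz, hz'⟩ := mem_closure_iff.1 h V hV.1 hV.2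
    rw [mem_singleton_iff] at hz'
    exact hz' ▸ hz
  · intro h
    exact mem_closure_iff.2 fun V hV hx => ⟨y, (h ⟨hV, hx⟩).2, rfl⟩

theorem nb_inj {T : Type u} [TopologicalSpace T] [T0Space T] {x y : T} (h : nb x = nb y) :
    x = y := by
  refine (inseparable_iff_forall_isOpen.2 fun V hV => ?_).eq
  constructor
  · intro hx
    exact (h ▸ (⟨hV, hx⟩ : V ∈ nb x) : V ∈ nb y).2
  · intro hx
    exact (h.symm ▸ (⟨hV, hx⟩ : V ∈ nb y) : V ∈ nb x).2

/-- The points of the auxiliary Scott space. -/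
@[ext] structure Pt {T : Type u} [TopologicalSpace T] (Y : Set T) : Type u where
  y : T
  hy : y ∈ Y
  φ : Set (Set T)
  hφ : φ ⊆ nb y

section PtSec

variable {T : Type u} [TopologicalSpace T] {Y : Set T}

instance [T0Space T] : PartialOrder (Pt Y) where
  le a b := a.φ ⊆ b.φ ∧ (a.y = b.y ∨ b.φ = nb b.y)
  le_refl a := ⟨subset_rfl, Or.inl rfl⟩
  le_trans a b c hab hbc := by
    refine ⟨hab.1.trans hbc.1, ?_⟩
    rcases hbc.2 with h | h
    · rcases hab.2 with h' | h'
      · exact Or.inl (h'.trans h)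
      · right
        refine subset_antisymm c.hφ ?_
        rw [← h, ← h']
        exact hbc.1
    · exact Or.inr h
  le_antisymm a b hab hba := by
    have h1 : a.φ = b.φ := subset_antisymm hab.1 hba.1
    have h2 : a.y = b.y := by
      rcases hab.2 with h | h
      · exact h
      · rcases hba.2 with h' | h'
        · exact h'.symm
        · apply nb_inj
          rw [← h, ← h', h1]
    exact Pt.ext h2 h1

variable [T0Space T]

theorem le_def {a b : Pt Y} : a ≤ b ↔ a.φ ⊆ b.φ ∧ (a.y = b.y ∨ b.φ = nb b.y) := Iff.rfl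

/-- The main lemma on directed suprema. -/
theorem exists_lub (hT : ScottSpace T) (hY : DClosed Y) {D : Set (Pt Y)} (hne : D.Nonempty)
    (hdir : DirectedOn (· ≤ ·) D) :
    ∃ s, IsLUB D s ∧ ∀ V ∈ s.φ, ∃ d ∈ D, V ∈ d.φ := by
  by_cases hpt : ∃ a ∈ D, a.φ = nb a.y
  · obtain ⟨a, haD, ha⟩ := hpt
    have hpt' : ∀ b ∈ D, a ≤ b → b.φ = nb b.y := by
      intro b hb hab
      rcases hab.2 with h | h
      · refine subset_antisymm b.hφ ?_
        rw [← h, ← ha]
        exact hab.1
      · exact h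
    let D' : Set T := {t | ∃ b ∈ D, a ≤ b ∧ b.y = t}
    have hD' : Dir D' := by
      refine ⟨⟨a.y, a, haD, le_rfl, rfl⟩, ?_⟩
      rintro _ ⟨b, hb, hab, rfl⟩ _ ⟨c, hc, hac, rfl⟩
      obtain ⟨e, he, h1, h2⟩ := hdir b hb c hc
      have hae := hab.trans h1
      refine ⟨e.y, ⟨e, he, hae, rfl⟩, ?_, ?_⟩
      · rw [spec_iff, ← hpt' b hb hab, ← hpt' e he hae]
        exact h1.1
      · rw [spec_iff, ← hpt' c hc hac, ← hpt' e he hae]
        exact h2.1
    obtain ⟨s, hs⟩ := hT.dcpo D' hD'
    have hsY : s ∈ Y := hY D' (by rintro _ ⟨b, -, -, rfl⟩; exact b.hy) hD' s hs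
    refine ⟨⟨s, hsY, nb s, subset_rfl⟩, ⟨?_, ?_⟩, ?_⟩
    · intro b hb
      obtain ⟨e, he, h1, h2⟩ := hdir a haD b hb
      refine h2.trans ⟨?_, Or.inr rfl⟩
      rw [hpt' e he h1]
      exact spec_iff.1 (hs.1 e.y ⟨e, he, h1, rfl⟩)
    · intro z hz
      have hza : z.φ = nb z.y := by
        have h1 := hz haD
        rcases h1.2 with h | h
        · refine subset_antisymm z.hφ ?_
          rw [← h, ← ha]
          exact h1.1
        · exact h
      refine ⟨?_, Or.inr hza⟩
      change nb s ⊆ z.φ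
      rw [hza]
      refine spec_iff.1 (hs.2 z.y ?_)
      rintro _ ⟨b, hb, hab, rfl⟩
      rw [spec_iff, ← hza, ← hpt' b hb hab]
      exact (hz hb).1
    · rintro V ⟨hV, hsV⟩
      obtain ⟨_, ⟨b, hb, hab, rfl⟩, hbV⟩ := ((hT.isOpen_iff V).1 hV).2 D' s hD' hs hsV
      refine ⟨b, hb, ?_⟩
      rw [hpt' b hb hab]
      exact ⟨hV, hbV⟩
  · push Not at hpt
    obtain ⟨a, haD⟩ := hne
    have hy : ∀ b ∈ D, b.y = a.y := by
      intro b hb
      obtain ⟨e, he, h1, h2⟩ := hdir a haD b hb
      have h3 := h1.2.resolve_right (hpt e he)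
      have h4 := h2.2.resolve_right (hpt e he)
      exact h4.trans h3.symm
    refine ⟨⟨a.y, a.hy, {V | ∃ b ∈ D, V ∈ b.φ}, ?_⟩, ⟨?_, ?_⟩, fun V hV => hV⟩
    · rintro V ⟨b, hb, hV⟩
      rw [← hy b hb]
      exact b.hφ hV
    · intro b hb
      exact ⟨fun V hV => ⟨b, hb, hV⟩, Or.inl (hy b hb)⟩
    · intro z hz
      refine ⟨?_, (hz haD).2⟩
      rintro V ⟨b, hb, hV⟩
      exact (hz hb).1 hV

end PtSec

theorem dense_of (X T : Type u) [TopologicalSpace X] [TopologicalSpace T] {i : X → T}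
    (h : ScottCompletion i) : DDense (range i) := by
  intro Y hY hiY
  haveI : T0Space T := h.scott.t0
  letI : TopologicalSpace (Pt Y) := Topology.scott _ univ
  haveI : IsScott (Pt Y) univ := ⟨rfl⟩
  have hZ : ScottSpace (Pt Y) := scottSpace_of _ fun D hne hdir => by
    obtain ⟨s, hs, -⟩ := exists_lub h.scott hY hne hdir
    exact ⟨s, hs⟩
  let j : X → Pt Y := fun x => ⟨i x, hiY ⟨x, rfl⟩, nb (i x), subset_rfl⟩
  have hj : Continuous j := by
    refine continuous_def.2 fun S hS => isOpen_iff_mem_nhds.2 fun x hx => ?_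
    have hS' := hS
    rw [Topology.IsScott.isOpen_iff_isUpperSet_and_dirSupInaccOn (D := univ),
      dirSupInaccOn_univ] at hS'
    obtain ⟨hup, hin⟩ := hS'
    let D : Set (Pt Y) := {a | a.y = i x ∧ a.φ.Finite}
    have hlub : IsLUB D (j x) := by
      refine ⟨?_, ?_⟩
      · rintro a ⟨ha, -⟩
        refine ⟨?_, Or.inl ha⟩
        change a.φ ⊆ nb (i x)
        rw [← ha]
        exact a.hφ
      · intro z hz
        refine ⟨?_, ?_⟩
        · intro V hV
          have h1 : (⟨i x, hiY ⟨x, rfl⟩, {V}, singleton_subset_iff.2 hV⟩ : Pt Y) ∈ D :=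
            ⟨rfl, finite_singleton V⟩
          exact (hz h1).1 rfl
        · have h1 : (⟨i x, hiY ⟨x, rfl⟩, ∅, empty_subset _⟩ : Pt Y) ∈ D := ⟨rfl, finite_empty⟩
          exact (hz h1).2
    have hdir : DirectedOn (· ≤ ·) D := by
      rintro a ⟨ha, haf⟩ b ⟨hb, hbf⟩
      refine ⟨⟨i x, hiY ⟨x, rfl⟩, a.φ ∪ b.φ, union_subset ?_ ?_⟩, ⟨rfl, haf.union hbf⟩,
        ⟨subset_union_left, Or.inl ha⟩, ⟨subset_union_right, Or.inl hb⟩⟩
      · rw [← ha]
        exact a.hφ
      · rw [← hb]
        exact b.hφ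
    obtain ⟨a, ⟨ha, haf⟩, haS⟩ := hin (d := D)
      ⟨⟨i x, hiY ⟨x, rfl⟩, ∅, empty_subset _⟩, rfl, finite_empty⟩ hdir hlub hx
    have hO : IsOpen (⋂₀ a.φ) := haf.isOpen_sInter fun V hV => (a.hφ hV).1
    refine Filter.mem_of_superset ((hO.preimage h.cont).mem_nhds ?_) ?_
    · intro V hV
      have := (a.hφ hV).2
      rwa [ha] at this
    · intro x' hx'
      refine hup ?_ haS
      exact ⟨fun V hV => ⟨(a.hφ hV).1, hx' V hV⟩, Or.inr rfl⟩
  obtain ⟨g, ⟨hg, hgi⟩, -⟩ := h.univ (Pt Y) hZ j hj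
  have hgi' : ∀ x, g (i x) = j x := fun x => congrFun hgi x
  have hVopen : ∀ V : Set T, IsOpen V → IsOpen {a : Pt Y | V ∈ a.φ} := by
    intro V hV
    rw [Topology.IsScott.isOpen_iff_isUpperSet_and_dirSupInaccOn (D := univ), dirSupInaccOn_univ]
    refine ⟨fun a b hab ha => hab.1 ha, fun D hne hdir s hs hsV => ?_⟩
    obtain ⟨s', hs', hs''⟩ := exists_lub h.scott hY hne hdir
    rw [hs.unique hs'] at hsV
    obtain ⟨d, hd, hdV⟩ := hs'' V hsV
    exact ⟨d, hd, hdV⟩
  have hkey : ∀ (p : T) (V : Set T), IsOpen V → (p ∈ V ↔ V ∈ (g p).φ) := by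
    intro p V hV
    have h1 : V = g ⁻¹' {a : Pt Y | V ∈ a.φ} := by
      refine open_unique h hV ((hVopen V hV).preimage hg) ?_
      ext x
      change i x ∈ V ↔ V ∈ (g (i x)).φ
      rw [hgi']
      exact ⟨fun hx => ⟨hV, hx⟩, fun hx => hx.2⟩
    exact ⟨fun hp => by rw [h1] at hp; exact hp, fun hp => by rw [h1]; exact hp⟩
  refine eq_univ_of_forall fun p => ?_
  have hx : ∃ x, i x ∈ closure {p} := by
    by_contra hcon
    push Not at hcon
    have h1 : (closure {p})ᶜ = (univ : Set T) := by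
      refine open_unique h isClosed_closure.isOpen_compl isOpen_univ ?_
      ext x
      exact ⟨fun _ => mem_univ _, fun _ => hcon x⟩
    have h2 : p ∈ (closure {p})ᶜ := by rw [h1]; exact mem_univ _
    exact h2 (subset_closure rfl)
  obtain ⟨x, hx⟩ := hx
  have h1 : g (i x) ≤ g p := by
    have h2 : g (i x) ∈ closure {g p} := by
      have h3 := image_closure_subset_closure_image hg (mem_image_of_mem g hx)
      rwa [image_singleton] at h3
    rwa [Topology.IsScott.closure_singleton, mem_Iic] at h2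
  rw [hgi'] at h1
  have h2 : (g p).φ = nb (g p).y := by
    rcases h1.2 with h3 | h3
    · refine subset_antisymm (g p).hφ ?_
      rw [← h3]
      exact h1.1
    · exact h3
  have h3 : nb p = nb (g p).y := by
    rw [← h2]
    ext V
    constructor
    · rintro ⟨hV, hp⟩
      exact (hkey p V hV).1 hp
    · intro hV
      have hVo : IsOpen V := ((g p).hφ hV).1
      exact ⟨hVo, (hkey p V hVo).2 hV⟩
  rw [nb_inj h3]
  exact (g p).hy

/-- Every Scott completion of a `T₀` space is a D-completion. -/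
theorem result (X T : Type u) [TopologicalSpace X] [TopologicalSpace T] [T0Space X] (i : X → T)
    (h : ScottCompletion i) : DCompletion i := by
  refine ⟨⟨h.scott.t0, h.scott.dcpo, fun U hU => (h.scott.isOpen_iff U).1 hU⟩, ?_, dense_of X T h⟩
  have hind : IsInducing i := by
    refine isInducing_iff_nhds.2 fun x => le_antisymm (h.cont.tendsto x).le_comap ?_
    intro U hU
    obtain ⟨O, hOU, hO, hxO⟩ := mem_nhds_iff.1 hU
    obtain ⟨V, hV, hVO⟩ := open_exists h hO
    refine ⟨V, hV.mem_nhds ?_, ?_⟩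
    · rw [← hVO] at hxO
      exact hxO
    · rw [hVO]
      exact hOU
  exact ⟨hind, hind.injective⟩

end Pool.Agent.Results.MP_50fe75_gt.ScottCompletion
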